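import Mathlib
import Pool.Agent.H15.DR4

set_option autoImplicit false

namespace Pool.Agent.Results.MP_89b2fa_an.Discont

open Pool.Agent.H15.DR MeasureTheory Metric

theorem result : ∃ (R : ℝ) (b g : E → E) (u : E → ℝ), 0 < R ∧ Measurable b ∧
    MemLp b 2 (mu R) ∧ MemLp u 2 (mu R) ∧ MemLp g 2 (mu R) ∧ MemLp u ⊤ (mu R) ∧
    WeakGrad R u g ∧ WeakEq R b g ∧
    ¬ ∃ v : E → ℝ, ContinuousOn v (ball 0 R) ∧ u =ᵐ[mu R] v :=
  Pool.Agent.H15.DR.main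

end Pool.Agent.Results.MP_89b2fa_an.Discont
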